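import Pool.Agent.Y186.RA.Defs

/-!
# The operators of finite propagation form a `*`-algebra
-/

set_option autoImplicit false

open scoped InnerProductSpace Classical

noncomputable section

namespace Pool.Agent.Y186.RA

variable {X : Type} [MetricSpace X]

omit [MetricSpace X] in
lemma inner_delta (x : X) (f : L2 X) : ⟪delta x, f⟫_ℂ = f x := by
  unfold delta
  rw [lp.inner_single_left]
  simp

omit [MetricSpace X] in
lemma adj_entry (a : Op X) (x y : X) : ⟪delta x, (star a) (delta y)⟫_ℂ
    = (starRingEnd ℂ) ⟪delta y, a (delta x)⟫_ℂ := by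
  rw [ContinuousLinearMap.star_eq_adjoint, ContinuousLinearMap.adjoint_inner_right,
    inner_conj_symm]

lemma FiniteProp.star {a : Op X} (h : FiniteProp a) : FiniteProp (star a) := by
  obtain ⟨R, hR⟩ := h
  refine ⟨R, fun x y hxy => ?_⟩
  rw [adj_entry, hR y x (by rwa [dist_comm]), map_zero]

lemma FiniteProp.mul {a b : Op X} (ha : FiniteProp a) (hb : FiniteProp b) :
    FiniteProp (a * b) := by
  obtain ⟨R, hR⟩ := ha.star
  obtain ⟨R', hR'⟩ := hb
  refine ⟨R + R', fun x y hxy => ?_⟩
  rw [ContinuousLinearMap.mul_apply]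
  have h1 : ⟪delta x, a (b (delta y))⟫_ℂ = ⟪(Star.star a) (delta x), b (delta y)⟫_ℂ := by
    rw [ContinuousLinearMap.star_eq_adjoint, ContinuousLinearMap.adjoint_inner_left]
  rw [h1, lp.inner_eq_tsum]
  have h2 : ∀ z : X, ⟪((Star.star a) (delta x) : L2 X) z, (b (delta y) : L2 X) z⟫_ℂ = 0 := by
    intro z
    have e1 := inner_delta z ((Star.star a) (delta x))
    have e2 := inner_delta z (b (delta y))
    rcases lt_or_ge R (dist z x) with h3 | h3
    · rw [hR z x h3] at e1
      rw [← e1, inner_zero_left]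
    · have h4 : R' < dist z y := by
        have h5 := dist_triangle x z y
        rw [dist_comm x z] at h5
        linarith
      rw [hR' z y h4] at e2
      rw [← e2, inner_zero_right]
  simp only [h2, tsum_zero]

lemma FiniteProp.add {a b : Op X} (ha : FiniteProp a) (hb : FiniteProp b) :
    FiniteProp (a + b) := by
  obtain ⟨R, hR⟩ := ha
  obtain ⟨R', hR'⟩ := hb
  refine ⟨max R R', fun x y hxy => ?_⟩
  rw [ContinuousLinearMap.add_apply, inner_add_right, hR x y (lt_of_le_of_lt (le_max_left _ _) hxy),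
    hR' x y (lt_of_le_of_lt (le_max_right _ _) hxy), add_zero]

lemma finiteProp_algebraMap (c : ℂ) : FiniteProp (algebraMap ℂ (Op X) c) := by
  refine ⟨0, fun x y hxy => ?_⟩
  rw [Algebra.algebraMap_eq_smul_one, ContinuousLinearMap.smul_apply,
    ContinuousLinearMap.one_apply, inner_smul_right, inner_delta]
  have hne : x ≠ y := dist_pos.1 hxy
  unfold delta
  rw [lp.single_apply_ne _ _ _ hne, mul_zero]

/-- The `*`-algebra of operators of finite propagation. -/
def fpAlg (X : Type) [MetricSpace X] : StarSubalgebra ℂ (Op X) where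
  carrier := {a | FiniteProp a}
  mul_mem' := FiniteProp.mul
  add_mem' := FiniteProp.add
  algebraMap_mem' := finiteProp_algebraMap
  star_mem' := FiniteProp.star

theorem adjoin_eq : StarAlgebra.adjoin ℂ {a : Op X | FiniteProp a} = fpAlg X :=
  le_antisymm (StarAlgebra.adjoin_le fun _ h => h) (StarAlgebra.subset_adjoin ℂ _)

theorem mem_topClosure (a : Op X) :
    a ∈ (StarAlgebra.adjoin ℂ {a : Op X | FiniteProp a}).topologicalClosure ↔ a ∈ uRoe X := by
  rw [adjoin_eq, ← SetLike.mem_coe, StarSubalgebra.topologicalClosure_coe]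
  rfl

/-- From `*`-homomorphisms on the subtype to functions. -/
theorem embeds_of {X Y : Type} [MetricSpace X] [MetricSpace Y]
    (Φ : (StarAlgebra.adjoin ℂ {a : Op X | FiniteProp a}).topologicalClosure →⋆ₙₐ[ℂ]
      (StarAlgebra.adjoin ℂ {a : Op Y | FiniteProp a}).topologicalClosure)
    (hΦ : Function.Injective Φ) : Embeds X Y := by
  refine ⟨fun a => if h : a ∈ (StarAlgebra.adjoin ℂ {a : Op X | FiniteProp a}).topologicalClosure
    then (Φ ⟨a, h⟩ : Op Y) else 0, ?_, ⟨?_, ?_⟩, ⟨?_, ?_⟩, ?_⟩
  · intro a ha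
    rw [← mem_topClosure] at ha
    beta_reduce
    rw [dif_pos ha, ← mem_topClosure]
    exact (Φ ⟨a, ha⟩).2
  · intro a ha b hb
    rw [← mem_topClosure] at ha hb
    rw [dif_pos ha, dif_pos hb, dif_pos (add_mem ha hb)]
    have := map_add Φ ⟨a, ha⟩ ⟨b, hb⟩
    exact congrArg Subtype.val this
  · intro s a ha
    rw [← mem_topClosure] at ha
    rw [dif_pos ha, dif_pos (SMulMemClass.smul_mem s ha)]
    have := map_smul Φ s ⟨a, ha⟩
    exact congrArg Subtype.val this
  · intro a ha b hb
    rw [← mem_topClosure] at ha hb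
    rw [dif_pos ha, dif_pos hb, dif_pos (mul_mem ha hb)]
    have := map_mul Φ ⟨a, ha⟩ ⟨b, hb⟩
    exact congrArg Subtype.val this
  · intro a ha
    rw [← mem_topClosure] at ha
    rw [dif_pos ha, dif_pos (star_mem ha)]
    have := map_star Φ ⟨a, ha⟩
    exact congrArg Subtype.val this
  · intro a ha b hb h
    rw [← mem_topClosure] at ha hb
    beta_reduce at h
    rw [dif_pos ha, dif_pos hb] at h
    have := hΦ (Subtype.ext h)
    exact congrArg Subtype.val this

end Pool.Agent.Y186.RA
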