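import Mathlib

/-!
# Asymptotic dimension: colourings, unions, and maps which are uniformly finite-to-one

`CA S k`: for every scale the set `S` has a colouring with `k + 1` colours such that monochromatic
chains are bounded.
-/

set_option autoImplicit false

open Relation

namespace Pool.Agent.Y186.RA

/-- one step of a monochromatic chain in `S` at the scale `R` -/
def Ch {Z : Type} [MetricSpace Z] (S : Set Z) {k : ℕ} (c : Z → Fin (k + 1)) (R : ℝ) (a b : Z) :
    Prop :=
  a ∈ S ∧ b ∈ S ∧ c a = c b ∧ dist a b ≤ R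

/-- asymptotic dimension at most `k`, for subsets, in terms of colourings -/
def CA {Z : Type} [MetricSpace Z] (S : Set Z) (k : ℕ) : Prop :=
  ∀ R : ℝ, ∃ (c : Z → Fin (k + 1)) (D : ℝ), ∀ x y, ReflTransGen (Ch S c R) x y → dist x y ≤ D

section basic

variable {Z : Type} [MetricSpace Z] {S : Set Z} {k : ℕ} {c : Z → Fin (k + 1)} {R : ℝ}

lemma Ch.symm {a b : Z} (h : Ch S c R a b) : Ch S c R b a :=
  ⟨h.2.1, h.1, h.2.2.1.symm, by rw [dist_comm]; exact h.2.2.2⟩

lemma chain_symm {a b : Z} (h : ReflTransGen (Ch S c R) a b) : ReflTransGen (Ch S c R) b a := by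
  induction h with
  | refl => exact ReflTransGen.refl
  | tail _ h2 ih => exact ReflTransGen.head h2.symm ih

lemma chain_color {a b : Z} (h : ReflTransGen (Ch S c R) a b) : c a = c b := by
  induction h with
  | refl => rfl
  | tail _ h2 ih => exact ih.trans h2.2.2.1

lemma chain_mem {a b : Z} (h : ReflTransGen (Ch S c R) a b) (ha : a ∈ S) : b ∈ S := by
  cases h with
  | refl => exact ha
  | tail _ h2 => exact h2.2.1

end basic

/-- The usual definition of asymptotic dimension at most `k`. -/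
def AsdimLE (Z : Type) [MetricSpace Z] (k : ℕ) : Prop :=
  ∀ R : ℝ, 0 < R → ∃ U : Fin (k + 1) → Set (Set Z),
    (∃ D : ℝ, ∀ i, ∀ A ∈ U i, ∀ a ∈ A, ∀ b ∈ A, dist a b ≤ D) ∧
    (∀ z : Z, ∃ i, ∃ A ∈ U i, z ∈ A) ∧
    (∀ i, ∀ A ∈ U i, ∀ B ∈ U i, A ≠ B → ∀ a ∈ A, ∀ b ∈ B, R < dist a b)

theorem ca_of_asdim {Z : Type} [MetricSpace Z] {k : ℕ} (h : AsdimLE Z k) :
    CA (Set.univ : Set Z) k := by
  intro R
  obtain ⟨U, ⟨D, hD⟩, hcov, hsep⟩ := h (max R 1) (by positivity)
  choose i A hA hz using hcov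
  refine ⟨i, max D 0, ?_⟩
  intro x y hxy
  have key : ∀ y, ReflTransGen (Ch Set.univ i R) x y → A x = A y := by
    intro y hy
    induction hy with
    | refl => rfl
    | @tail b y _ h2 ih =>
      rw [ih]
      by_contra hne
      have h3 := hsep (i b) (A b) (hA b) (A y) (by rw [h2.2.2.1]; exact hA y) hne b (hz b) y (hz y)
      have h4 := h2.2.2.2
      have h5 := le_max_left R 1
      linarith
  have hk := key y hxy
  have hzy := hz y
  rw [← hk] at hzy
  exact (hD (i x) (A x) (hA x) x (hz x) y hzy).trans (le_max_left _ _)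

theorem asdim_of_ca {Z : Type} [MetricSpace Z] {k : ℕ} (h : CA (Set.univ : Set Z) k) :
    AsdimLE Z k := by
  intro R _
  obtain ⟨c, D, hD⟩ := h R
  refine ⟨fun i => {A | ∃ x, c x = i ∧ A = {y | ReflTransGen (Ch Set.univ c R) x y}}, ⟨D, ?_⟩, ?_, ?_⟩
  · rintro i A ⟨x, -, rfl⟩ a ha b hb
    exact hD a b ((chain_symm ha).trans hb)
  · intro z
    exact ⟨c z, _, ⟨z, rfl, rfl⟩, ReflTransGen.refl⟩
  · rintro i A ⟨x, hx, rfl⟩ B ⟨x', hx', rfl⟩ hne a ha b hb
    by_contra hcon
    push Not at hcon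
    apply hne
    have hca : c a = i := by rw [← chain_color ha, hx]
    have hcb : c b = i := by rw [← chain_color hb, hx']
    have hab : ReflTransGen (Ch Set.univ c R) x x' :=
      (ha.tail ⟨trivial, trivial, hca.trans hcb.symm, hcon⟩).trans (chain_symm hb)
    ext y
    constructor
    · intro hy
      exact (chain_symm hab).trans hy
    · intro hy
      exact hab.trans hy

/-- A chain meets every annulus. -/
lemma chain_annulus {Z : Type} [MetricSpace Z] {r : Z → Z → Prop} {R : ℝ}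
    (hr : ∀ a b, r a b → dist a b ≤ R) {x y : Z} (h : ReflTransGen r x y) (t : ℝ) (ht0 : 0 ≤ t)
    (ht : t < dist x y) : ∃ z, ReflTransGen r x z ∧ t < dist x z ∧ dist x z ≤ t + R := by
  induction h with
  | refl => rw [dist_self] at ht; linarith
  | @tail b y h1 h2 ih =>
    by_cases hb : t < dist x b
    · exact ih hb
    · push Not at hb
      refine ⟨y, h1.tail h2, ht, ?_⟩
      have h3 := dist_triangle x b y
      have h4 := hr b y h2
      linarith

/-- If few points can be reached from `x`, they are all close to `x`. -/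
lemma chain_dist {Z : Type} [MetricSpace Z] {r : Z → Z → Prop} {R : ℝ} (hR : 0 < R)
    (hr : ∀ a b, r a b → dist a b ≤ R) {x y : Z} (h : ReflTransGen r x y) (T : Set Z)
    (hT : ∀ z, ReflTransGen r x z → z ∈ T) (m : ℕ) (hTm : T.encard ≤ m) :
    dist x y ≤ R * m := by
  by_contra hcon
  push Not at hcon
  have h1 : ∀ j : Fin m, ∃ z, ReflTransGen r x z ∧ R * j < dist x z ∧ dist x z ≤ R * j + R := by
    intro j
    apply chain_annulus hr h
    · positivity
    · refine lt_of_le_of_lt ?_ hcon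
      have : (j : ℝ) ≤ m := by exact_mod_cast j.2.le
      exact mul_le_mul_of_nonneg_left this hR.le
  choose z hz1 hz2 hz3 using h1
  have hinj : Function.Injective z := by
    intro i j hij
    by_contra hne
    rcases lt_or_gt_of_ne hne with hlt | hlt
    · have h2 : ((i : ℕ) : ℝ) + 1 ≤ (j : ℕ) := by exact_mod_cast hlt
      have h3 := hz3 i
      have h4 := hz2 j
      rw [hij] at h3
      nlinarith
    · have h2 : ((j : ℕ) : ℝ) + 1 ≤ (i : ℕ) := by exact_mod_cast hlt
      have h3 := hz3 j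
      have h4 := hz2 i
      rw [← hij] at h3
      nlinarith
  have hx : x ∉ Set.range z := by
    rintro ⟨j, hj⟩
    have h2 := hz2 j
    rw [hj, dist_self] at h2
    have : 0 ≤ R * (j : ℕ) := by positivity
    linarith
  have h5 : (insert x (Set.range z)).encard ≤ (m : ℕ∞) := by
    refine le_trans (Set.encard_le_encard ?_) hTm
    intro w hw
    rcases hw with rfl | ⟨j, rfl⟩
    · exact hT _ ReflTransGen.refl
    · exact hT _ (hz1 j)
  rw [Set.encard_insert_of_notMem hx, ← Set.image_univ, hinj.encard_image, Set.encard_univ] at h5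
  simp only [ENat.card_eq_coe_fintype_card, Fintype.card_fin] at h5
  have h6 : m + 1 ≤ m := by exact_mod_cast h5
  omega

/-- Pulling back along a coarse map which is uniformly finite-to-one. -/
theorem ca_pull {X Y : Type} [MetricSpace X] [MetricSpace Y]
    (hY : ∀ r : ℝ, ∃ N : ℕ, ∀ y : Y, (Metric.closedBall y r).encard ≤ (N : ℕ∞)) {k : ℕ}
    (hYk : CA (Set.univ : Set Y) k) (S : Set X) (f : S → Y)
    (hf : ∀ r : ℝ, ∃ s : ℝ, ∀ x x' : S, dist x x' ≤ r → dist (f x) (f x') ≤ s)
    (K : ℕ) (hK : ∀ y : Y, (f ⁻¹' {y}).encard ≤ (K : ℕ∞)) : CA S k := by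
  classical
  intro R0
  obtain ⟨R, hR0, hRR⟩ : ∃ R : ℝ, 0 < R ∧ R0 ≤ R := ⟨max R0 1, by positivity, le_max_left _ _⟩
  obtain ⟨s, hs⟩ := hf R
  obtain ⟨c, D, hD⟩ := hYk s
  obtain ⟨N, hN⟩ := hY D
  refine ⟨fun x => if hx : x ∈ S then c (f ⟨x, hx⟩) else 0, R * ((N * K : ℕ) : ℝ), ?_⟩
  set c' : X → Fin (k + 1) := fun x => if hx : x ∈ S then c (f ⟨x, hx⟩) else 0 with hc'
  intro x y hxy
  by_cases hx : x ∈ S
  swap
  · have : x = y := by
      rcases Relation.ReflTransGen.cases_head hxy with h | ⟨z, h1, _⟩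
      · exact h
      · exact absurd h1.1 hx
    rw [this, dist_self]
    positivity
  have key : ∀ y, ReflTransGen (Ch S c' R0) x y → ∃ hy : y ∈ S,
      ReflTransGen (Ch Set.univ c s) (f ⟨x, hx⟩) (f ⟨y, hy⟩) := by
    intro y hy
    induction hy with
    | refl => exact ⟨hx, ReflTransGen.refl⟩
    | @tail b y _ h2 ih =>
      obtain ⟨hb, ih⟩ := ih
      obtain ⟨h3, h4, h5, h6⟩ := h2
      refine ⟨h4, ih.tail ⟨trivial, trivial, ?_, ?_⟩⟩
      · simpa only [hc', dif_pos h3, dif_pos h4] using h5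
      · exact hs ⟨b, h3⟩ ⟨y, h4⟩ (h6.trans hRR)
  set T : Set X := Subtype.val '' (f ⁻¹' (Metric.closedBall (f ⟨x, hx⟩) D)) with hT
  apply chain_dist hR0 (r := Ch S c' R0) (fun a b h => h.2.2.2.trans hRR) hxy T
  · intro z hz
    obtain ⟨hzS, h⟩ := key z hz
    refine ⟨⟨z, hzS⟩, ?_, rfl⟩
    rw [Set.mem_preimage, Metric.mem_closedBall, dist_comm]
    exact hD _ _ h
  · rw [hT, Subtype.val_injective.encard_image]
    have hfin : (Metric.closedBall (f ⟨x, hx⟩) D).Finite := Set.finite_of_encard_le_coe (hN _)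
    have h1 : f ⁻¹' (Metric.closedBall (f ⟨x, hx⟩) D)
        = ⋃ y ∈ hfin.toFinset, f ⁻¹' {y} := by
      ext w
      simp
    rw [h1]
    have h2 : (⋃ y ∈ hfin.toFinset, f ⁻¹' {y}).encard ≤ ∑ y ∈ hfin.toFinset, (f ⁻¹' {y}).encard := by
      generalize hfin.toFinset = F
      induction F using Finset.induction_on with
      | empty => simp
      | insert a F ha ih =>
        rw [Finset.set_biUnion_insert, Finset.sum_insert ha]
        exact (Set.encard_union_le _ _).trans (add_le_add le_rfl ih)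
    refine h2.trans ?_
    refine (Finset.sum_le_sum fun y _ => hK y).trans ?_
    rw [Finset.sum_const, nsmul_eq_mul]
    push_cast
    gcongr
    have h3 := hN (f ⟨x, hx⟩)
    rw [← hfin.coe_toFinset, Set.encard_coe_eq_coe_finsetCard] at h3
    exact_mod_cast h3

/-- Union of two sets. -/
theorem ca_union {X : Type} [MetricSpace X] {k : ℕ} {S S' : Set X} (h1 : CA S k) (h2 : CA S' k) :
    CA (S ∪ S') k := by
  classical
  intro R0
  obtain ⟨R, hR0, hRR⟩ : ∃ R : ℝ, 0 < R ∧ R0 ≤ R := ⟨max R0 1, by positivity, le_max_left _ _⟩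
  obtain ⟨c1, D1', hD1'⟩ := h1 R0
  obtain ⟨D1, hD10, hD1⟩ : ∃ D1 : ℝ, 0 ≤ D1 ∧ ∀ x y, ReflTransGen (Ch S c1 R0) x y →
      dist x y ≤ D1 := ⟨max D1' 0, le_max_right _ _, fun x y h => (hD1' x y h).trans (le_max_left _ _)⟩
  obtain ⟨c2, D2', hD2'⟩ := h2 (D1 + 2 * R)
  obtain ⟨D2, hD20, hD2⟩ : ∃ D2 : ℝ, 0 ≤ D2 ∧ ∀ x y, ReflTransGen (Ch S' c2 (D1 + 2 * R)) x y →
      dist x y ≤ D2 := ⟨max D2' 0, le_max_right _ _, fun x y h => (hD2' x y h).trans (le_max_left _ _)⟩
  set c : X → Fin (k + 1) := fun x => if x ∈ S then c1 x else c2 x with hc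
  refine ⟨c, 2 * (D1 + R) + D2, ?_⟩
  -- the invariant
  have key : ∀ x z, ReflTransGen (Ch (S ∪ S') c R0) x z →
      (x ∈ S ∪ S' → z ∈ S ∪ S') ∧
      (ReflTransGen (Ch S c1 R0) x z ∨
        ∃ y y', dist x y ≤ D1 + R ∧ ReflTransGen (Ch S' c2 (D1 + 2 * R)) y y' ∧ y' ∈ S' ∧ y' ∉ S ∧
          c2 y' = c z ∧
          (z = y' ∨ (z ∈ S ∧ ∃ w, dist y' w ≤ R ∧ ReflTransGen (Ch S c1 R0) w z))) := by
    intro x z hz
    induction hz with
    | refl => exact ⟨id, Or.inl ReflTransGen.refl⟩
    | @tail b z hxb hbz ih =>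
      obtain ⟨ih0, ih⟩ := ih
      obtain ⟨hb, hz, hcc, hd⟩ := hbz
      refine ⟨fun _ => hz, ?_⟩
      have hdR := hd.trans hRR
      by_cases hzS : z ∈ S
      · by_cases hbS : b ∈ S
        · -- both in `S`
          have hstep : Ch S c1 R0 b z := ⟨hbS, hzS, by simpa [hc, hbS, hzS] using hcc, hd⟩
          rcases ih with ih | ⟨y, y', h3, h4, h5, h5', h6, h7⟩
          · exact Or.inl (ih.tail hstep)
          · refine Or.inr ⟨y, y', h3, h4, h5, h5', h6.trans hcc, Or.inr ⟨hzS, ?_⟩⟩
            rcases h7 with h7 | ⟨_, w, hw1, hw2⟩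
            · exact absurd (h7 ▸ hbS) h5'
            · exact ⟨w, hw1, hw2.tail hstep⟩
        · -- `b ∉ S`, `z ∈ S`
          have hbS' : b ∈ S' := hb.resolve_left hbS
          right
          rcases ih with ih | ⟨y, y', h3, h4, h5, h5', h6, h7⟩
          · have hxb' : x = b := by
              rcases Relation.ReflTransGen.cases_tail ih with h | ⟨w, _, hw⟩
              · exact h.symm
              · exact absurd hw.2.1 hbS
            refine ⟨x, b, by rw [dist_self]; linarith, by rw [hxb'], hbS', hbS, ?_,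
              Or.inr ⟨hzS, z, hdR, ReflTransGen.refl⟩⟩
            rw [← hcc]; simp [hc, hbS]
          · rcases h7 with h7 | ⟨h7, _⟩
            · refine ⟨y, y', h3, h4, h5, h5', h6.trans hcc, Or.inr ⟨hzS, z, ?_, ReflTransGen.refl⟩⟩
              rw [← h7]; exact hdR
            · exact absurd h7 hbS
      · -- `z ∉ S`
        have hzS' : z ∈ S' := hz.resolve_left hzS
        have hcz : c z = c2 z := by simp [hc, hzS]
        right
        rcases ih with ih | ⟨y, y', h3, h4, h5, h5', h6, h7⟩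
        · refine ⟨z, z, ?_, ReflTransGen.refl, hzS', hzS, hcz.symm, Or.inl rfl⟩
          have h8 := dist_triangle x b z
          have h9 := hD1 _ _ ih
          linarith
        · refine ⟨y, z, h3, h4.tail ⟨h5, hzS', ?_, ?_⟩, hzS', hzS, hcz.symm, Or.inl rfl⟩
          · rw [h6, hcc, hcz]
          · rcases h7 with h7 | ⟨_, w, hw1, hw2⟩
            · rw [← h7]; linarith
            · have h8 := dist_triangle y' w z
              have h9 := dist_triangle w b z
              have h10 := hD1 _ _ hw2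
              linarith
  intro x z hxz
  obtain ⟨-, h⟩ := key x z hxz
  rcases h with h | ⟨y, y', h3, h4, h5, h5', h6, h7⟩
  · have := hD1 _ _ h
    linarith
  · have h8 := hD2 _ _ h4
    have h9 := dist_triangle x y z
    have h10 := dist_triangle y y' z
    have h11 : dist y' z ≤ D1 + R := by
      rcases h7 with h7 | ⟨_, w, hw1, hw2⟩
      · rw [h7, dist_self]; linarith
      · have h12 := dist_triangle y' w z
        have h13 := hD1 _ _ hw2
        linarith
    linarith

/-- Finite unions. -/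
theorem ca_iUnion {X : Type} [MetricSpace X] {k : ℕ} {ι : Type} (s : Finset ι) (P : ι → Set X)
    (h : ∀ i ∈ s, CA (P i) k) : CA (⋃ i ∈ s, P i) k := by
  classical
  induction s using Finset.induction_on with
  | empty =>
    intro R
    refine ⟨fun _ => 0, 0, ?_⟩
    intro x y hxy
    rcases Relation.ReflTransGen.cases_head hxy with h | ⟨z, h1, _⟩
    · rw [h, dist_self]
    · have := h1.1
      simp at this
  | insert a s ha ih =>
    rw [Finset.set_biUnion_insert]
    exact ca_union (h a (Finset.mem_insert_self a s))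
      (ih fun i hi => h i (Finset.mem_insert_of_mem hi))

/-- If `X` is a finite union of sets which map to `Y` by coarse maps which are uniformly
finite-to-one, then `asdim X ≤ asdim Y`. -/
theorem asdim_le_of_pieces {X Y : Type} [MetricSpace X] [MetricSpace Y]
    (hY : ∀ r : ℝ, ∃ N : ℕ, ∀ y : Y, (Metric.closedBall y r).encard ≤ (N : ℕ∞)) {k : ℕ}
    (hYk : AsdimLE Y k) (m : ℕ) (P : Fin m → Set X) (hP : ∀ x, ∃ i, x ∈ P i)
    (h : ∀ i, ∃ f : P i → Y,
      (∀ r : ℝ, ∃ s : ℝ, ∀ x x' : P i, dist x x' ≤ r → dist (f x) (f x') ≤ s) ∧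
      ∃ K : ℕ, ∀ y : Y, (f ⁻¹' {y}).encard ≤ (K : ℕ∞)) : AsdimLE X k := by
  apply asdim_of_ca
  have h1 : (Set.univ : Set X) = ⋃ i ∈ (Finset.univ : Finset (Fin m)), P i := by
    ext x
    simpa using hP x
  rw [h1]
  apply ca_iUnion
  intro i _
  obtain ⟨f, hf, K, hK⟩ := h i
  exact ca_pull hY (ca_of_asdim hYk) (P i) f hf K hK

end Pool.Agent.Y186.RA
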