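import Mathlib

/-!
# Uniform Roe algebras, embeddings, property A: definitions
-/

set_option autoImplicit false

open scoped InnerProductSpace Classical symmDiff

noncomputable section

namespace Pool.Agent.Y186.RA

/-- The Hilbert space `ℓ²(X)`. -/
abbrev L2 (X : Type) : Type := lp (fun _ : X => ℂ) 2

/-- The bounded operators on `ℓ²(X)`. -/
abbrev Op (X : Type) : Type := L2 X →L[ℂ] L2 X

/-- The standard basis vector `δ_x` of `ℓ²(X)`. -/
def delta {X : Type} (x : X) : L2 X := lp.single 2 x (1 : ℂ)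

/-- The metric space `X` is uniformly locally finite. -/
def UniformlyLocallyFinite (X : Type) [MetricSpace X] : Prop :=
  ∀ r : ℝ, ∃ N : ℕ, ∀ x : X, (Metric.closedBall x r).encard ≤ (N : ℕ∞)

/-- The operator `a` on `ℓ²(X)` has finite propagation: there is `R` such that the matrix entry
`⟨a δ_y, δ_x⟩` is zero whenever the distance of `x` and `y` is greater than `R`. -/
def FiniteProp {X : Type} [MetricSpace X] (a : Op X) : Prop :=
  ∃ R : ℝ, ∀ x y : X, R < dist x y → ⟪delta x, a (delta y)⟫_ℂ = 0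

/-- The uniform Roe algebra of `X`: the norm closure of the set of bounded operators on `ℓ²(X)`
of finite propagation. -/
def uRoe (X : Type) [MetricSpace X] : Set (Op X) :=
  closure {a : Op X | FiniteProp a}

/-- `Φ` is linear on the uniform Roe algebra of `X`. -/
structure IsLin {X Y : Type} [MetricSpace X] (Φ : Op X → Op Y) : Prop where
  add : ∀ a ∈ uRoe X, ∀ b ∈ uRoe X, Φ (a + b) = Φ a + Φ b
  smul : ∀ s : ℂ, ∀ a ∈ uRoe X, Φ (s • a) = s • Φ a

/-- `Φ` is multiplicative and `*`-preserving on the uniform Roe algebra of `X`. -/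
structure IsMul {X Y : Type} [MetricSpace X] (Φ : Op X → Op Y) : Prop where
  mul : ∀ a ∈ uRoe X, ∀ b ∈ uRoe X, Φ (a * b) = Φ a * Φ b
  adj : ∀ a ∈ uRoe X, Φ (star a) = star (Φ a)

/-- The uniform Roe algebra of `X` embeds into the uniform Roe algebra of `Y`: there is an injective
`*`-homomorphism.  Values of `Φ` outside the uniform Roe algebra of `X` are irrelevant. -/
def Embeds (X Y : Type) [MetricSpace X] [MetricSpace Y] : Prop :=
  ∃ Φ : Op X → Op Y, (∀ a ∈ uRoe X, Φ a ∈ uRoe Y) ∧ IsLin Φ ∧ IsMul Φ ∧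
    ∀ a ∈ uRoe X, ∀ b ∈ uRoe X, Φ a = Φ b → a = b

/-- Property A, Yu's definition. -/
def PropertyA (Y : Type) [MetricSpace Y] : Prop :=
  ∀ R ε : ℝ, 0 < R → 0 < ε → ∃ (S : ℝ) (A : Y → Finset (Y × ℕ)),
    (∀ x, (x, 1) ∈ A x) ∧ (∀ x, ∀ p ∈ A x, dist x p.1 ≤ S) ∧
    ∀ x y, dist x y ≤ R → ((A x ∆ A y).card : ℝ) < ε * (A x ∩ A y).card

/-- Coarse maps on a subspace `S` of `X`: for every `r` there is `s` such that points at distance
at most `r` have images at distance at most `s`. -/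
def Coarse {X Y : Type} [MetricSpace X] [MetricSpace Y] (S : Set X) (f : S → Y) : Prop :=
  ∀ r : ℝ, ∃ s : ℝ, ∀ x x' : S, dist (x : X) (x' : X) ≤ r → dist (f x) (f x') ≤ s

/-- `f` is uniformly finite-to-one. -/
def FiniteToOne {A B : Type} (f : A → B) : Prop :=
  ∃ K : ℕ, ∀ y : B, (f ⁻¹' {y}).encard ≤ (K : ℕ∞)

/-- `X` is the union of finitely many subsets `P i` each of which has a uniformly finite-to-one
coarse map to `Y`. -/
def HasPieces (X Y : Type) [MetricSpace X] [MetricSpace Y] : Prop :=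
  ∃ (m : ℕ) (P : Fin m → Set X), (∀ x, ∃ i, x ∈ P i) ∧
    ∀ i, ∃ f : P i → Y, Coarse (P i) f ∧ FiniteToOne f

end Pool.Agent.Y186.RA
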