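import Pool.Agent.Y186.RA.PropA
import Pool.Agent.Y186.RA.Alg
import Pool.Agent.H626R3.CT.Asm
import Pool.Agent.H626R3.CT.T_TMetric
import Pool.Agent.H626R3.CT.T_TUlf
import Pool.Agent.H626R3.CT.T_TAnti
import Pool.Agent.H626R3.CT.T_TGraph
import Pool.Agent.H626R3.CT.T_TPot
import Pool.Agent.H626R3.CT.T_TLower
import Pool.Agent.H626R3.CT.T_TRect
import Pool.Agent.H626R3.CT.T_TFull
import Pool.Agent.H626R3.CT.T_TNest
import Pool.Agent.H626R3.CT.T_TRing
import Pool.Agent.H626R3.CT.T_TSum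
import Pool.Agent.H626R3.CT.T_TBoundary
import Pool.Agent.H626R3.CT.T_TAmp0
import Pool.Agent.H626R3.CT.T_TConv
import Pool.Agent.H626R3.CT.T_TUni
import Pool.Agent.H626R3.CT.T_TAmp
import Pool.Agent.H626R3.CT.T_TSchur
import Pool.Agent.H626R3.CT.T_TKer
import Pool.Agent.H626R3.CT.T_TL1
import Pool.Agent.H626R3.CT.T_TApprox38
import Pool.Agent.H626R3.CT.T_TEmb
import Pool.Agent.H626R3.CT.T_TWave
import Pool.Agent.H626R3.CT.T_TGauge
import Pool.Agent.H626R3.CT.T_TLift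
import Pool.Agent.H626R3.CT.T_TOnGrid
import Pool.Agent.H626R3.CT.T_TMoveIn
import Pool.Agent.H626R3.CT.T_TMoveBd
import Pool.Agent.H626R3.CT.T_TMoveAnti
import Pool.Agent.H626R3.CT.T_TMoveRefl
import Pool.Agent.H626R3.CT.T_TStep
import Pool.Agent.H626R3.CT.T_THole
import Pool.Agent.H626R3.CT.T_TPathY
import Pool.Agent.H626R3.CT.T_TBdd
import Pool.Agent.H626R3.CT.T_TFeat
import Pool.Agent.H626R3.CT.T_TUpper

/-!
# Embeddings of uniform Roe algebras without finite partitions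
-/

set_option autoImplicit false

open scoped Classical

namespace Pool.Agent.Y186.RA

open Pool.Agent.H626R3.CT

/-- The two spaces of the library. -/
theorem spaces : ∃ (X Y : Type) (_ : MetricSpace X) (_ : MetricSpace Y), ULF X ∧ ULF Y ∧
      (∃ Φ : (StarAlgebra.adjoin ℂ
              {T : lp (fun _ : X => ℂ) 2 →L[ℂ] lp (fun _ : X => ℂ) 2 |
                ∃ R : ℝ, ∀ a b : X, R < dist a b →
                  inner ℂ (lp.single (E := fun _ : X => ℂ) 2 a (1 : ℂ))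
                    (T (lp.single (E := fun _ : X => ℂ) 2 b (1 : ℂ))) = 0}).topologicalClosure
            →⋆ₙₐ[ℂ]
           (StarAlgebra.adjoin ℂ
              {T : lp (fun _ : Y => ℂ) 2 →L[ℂ] lp (fun _ : Y => ℂ) 2 |
                ∃ R : ℝ, ∀ a b : Y, R < dist a b →
                  inner ℂ (lp.single (E := fun _ : Y => ℂ) 2 a (1 : ℂ))
                    (T (lp.single (E := fun _ : Y => ℂ) 2 b (1 : ℂ))) = 0}).topologicalClosure,
        Function.Injective Φ) ∧ Pool.Agent.H626R3.CT.AsdimLE Y 1 ∧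
        ¬ Pool.Agent.H626R3.CT.AsdimLE X 1 :=
  Pool.Agent.H626R3.CT.Asm.final T_TMetric.ok T_TUlf.ok T_TAnti.ok T_TGraph.ok T_TPot.ok
    T_TLower.ok T_TRect.ok T_TFull.ok T_TNest.ok T_TRing.ok T_TSum.ok T_TBoundary.ok T_TAmp0.ok
    T_TConv.ok T_TUni.ok T_TAmp.ok T_TSchur.ok T_TKer.ok T_TL1.ok T_TApprox38.ok T_TEmb.ok
    T_TWave.ok T_TGauge.ok T_TLift.ok T_TOnGrid.ok T_TMoveIn.ok T_TMoveBd.ok T_TMoveAnti.ok
    T_TMoveRefl.ok T_TStep.ok T_THole.ok T_TPathY.ok T_TBdd.ok T_TFeat.ok T_TUpper.ok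

/-- uniformly locally finite -/
theorem ulf_encard {Z : Type} [MetricSpace Z] (h : ULF Z) : UniformlyLocallyFinite Z := by
  intro r
  obtain ⟨N, hN⟩ := h r
  refine ⟨N, fun x => ?_⟩
  obtain ⟨h1, h2⟩ := hN x
  exact Set.encard_le_coe_iff_finite_ncard_le.2 ⟨h1, h2⟩

theorem main : ∃ (X Y : Type) (_ : MetricSpace X) (_ : MetricSpace Y),
    UniformlyLocallyFinite X ∧ UniformlyLocallyFinite Y ∧ PropertyA Y ∧ Embeds X Y ∧
      ¬ HasPieces X Y := by
  obtain ⟨X, Y, mX, mY, uX, uY, ⟨Φ, hΦ⟩, hY, hX⟩ := spaces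
  refine ⟨X, Y, mX, mY, ulf_encard uX, ulf_encard uY, propertyA_of_asdim (Y := Y) (k := 1) hY,
    embeds_of Φ hΦ, ?_⟩
  rintro ⟨m, P, hcov, hP⟩
  exact hX (asdim_le_of_pieces (ulf_encard uY) hY m P hcov hP)

end Pool.Agent.Y186.RA
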