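import Pool.Agent.Y186.RA.Asdim
import Pool.Agent.Y186.RA.Defs

/-!
# Finite asymptotic dimension implies property A
-/

set_option autoImplicit false

open scoped Classical symmDiff

namespace Pool.Agent.Y186.RA

section

variable {Y : Type} [MetricSpace Y] {k : ℕ}

/-- the set near `x` -/
def Near (U : Set (Set Y)) (L : ℝ) (x : Y) (A : Set Y) : Prop :=
  A ∈ U ∧ A.Nonempty ∧ Metric.infDist x A < L

/-- base points -/
noncomputable def bp [Nonempty Y] (A : Set Y) : Y :=
  if h : A.Nonempty then h.some else Classical.arbitrary Y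

/-- the part of Yu's set of colour `i` -/
noncomputable def E [Nonempty Y] (k : ℕ) (U : Set (Set Y)) (L : ℕ) (i : ℕ) (x : Y) :
    Finset (Y × ℕ) :=
  if h : ∃ A, Near U L x A then
    (Finset.range ⌊(L : ℝ) - Metric.infDist x h.choose⌋₊).image
      (fun j => (bp h.choose, (k + 1) * j + i + 2))
  else ∅

lemma near_unique {U : Set (Set Y)} {L : ℕ} {R R' : ℝ} (hR' : 2 * L + R ≤ R')
    (hsep : ∀ A ∈ U, ∀ B ∈ U, A ≠ B → ∀ a ∈ A, ∀ b ∈ B, R' < dist a b) {x y : Y}
    (hxy : dist x y ≤ R) {A B : Set Y} (hA : Near U L x A) (hB : Near U L y B) : A = B := by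
  by_contra hne
  obtain ⟨hA1, hA2, hA3⟩ := hA
  obtain ⟨hB1, hB2, hB3⟩ := hB
  obtain ⟨a, ha, hxa⟩ := (Metric.infDist_lt_iff hA2).1 hA3
  obtain ⟨b, hb, hyb⟩ := (Metric.infDist_lt_iff hB2).1 hB3
  have h1 := hsep A hA1 B hB1 hne a ha b hb
  have h2 := dist_triangle a x b
  have h3 := dist_triangle x y b
  rw [dist_comm a x] at h2
  linarith

lemma E_of_near [Nonempty Y] {U : Set (Set Y)} {L : ℕ} {R R' : ℝ} (hR : 0 ≤ R)
    (hR' : 2 * L + R ≤ R')
    (hsep : ∀ A ∈ U, ∀ B ∈ U, A ≠ B → ∀ a ∈ A, ∀ b ∈ B, R' < dist a b) {i : ℕ} {x : Y} {A : Set Y}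
    (hA : Near U L x A) :
    E k U L i x = (Finset.range ⌊(L : ℝ) - Metric.infDist x A⌋₊).image
      (fun j => (bp A, (k + 1) * j + i + 2)) := by
  have h : ∃ A, Near U L x A := ⟨A, hA⟩
  have h1 : h.choose = A :=
    near_unique hR' hsep (by rw [dist_self]; exact hR) h.choose_spec hA
  unfold E
  rw [dif_pos h, h1]

omit [MetricSpace Y] in
lemma E_inj (k i : ℕ) (y : Y) : Function.Injective (fun j : ℕ => (y, (k + 1) * j + i + 2)) := by
  intro a b h
  simp only [Prod.mk.injEq, true_and] at h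
  have h1 : (k + 1) * a = (k + 1) * b := by omega
  exact Nat.eq_of_mul_eq_mul_left (by omega) h1

lemma E_diff [Nonempty Y] {U : Set (Set Y)} {L : ℕ} {R R' : ℝ} (hR : 0 ≤ R)
    (hR' : 2 * L + R ≤ R')
    (hsep : ∀ A ∈ U, ∀ B ∈ U, A ≠ B → ∀ a ∈ A, ∀ b ∈ B, R' < dist a b) {i : ℕ} {x y : Y}
    (hxy : dist x y ≤ R) : ((E k U L i x \ E k U L i y).card : ℝ) ≤ R + 1 := by
  by_cases hx : ∃ A, Near U L x A
  swap
  · have : E k U L i x = ∅ := by unfold E; rw [dif_neg hx]
    rw [this]
    simp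
    linarith
  obtain ⟨A, hA⟩ := hx
  rw [E_of_near hR hR' hsep hA]
  have h2 := Metric.infDist_le_infDist_add_dist (s := A) (x := x) (y := y)
  have h3 := Metric.infDist_le_infDist_add_dist (s := A) (x := y) (y := x)
  rw [dist_comm y x] at h3
  by_cases hy : ∃ B, Near U L y B
  · obtain ⟨B, hB⟩ := hy
    have hAB : A = B := near_unique hR' hsep hxy hA hB
    subst hAB
    rw [E_of_near hR hR' hsep hB]
    rw [← Finset.image_sdiff _ _ (E_inj k i (bp A)), Finset.card_image_of_injective _ (E_inj k i _)]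
    have h4 : (Finset.range ⌊(L : ℝ) - Metric.infDist x A⌋₊ \
        Finset.range ⌊(L : ℝ) - Metric.infDist y A⌋₊).card
        ≤ ⌊(L : ℝ) - Metric.infDist x A⌋₊ - ⌊(L : ℝ) - Metric.infDist y A⌋₊ := by
      have h5 : Finset.range ⌊(L : ℝ) - Metric.infDist x A⌋₊ \
        Finset.range ⌊(L : ℝ) - Metric.infDist y A⌋₊ ⊆
        Finset.Ico ⌊(L : ℝ) - Metric.infDist y A⌋₊ ⌊(L : ℝ) - Metric.infDist x A⌋₊ := by
        intro j hj
        simp only [Finset.mem_sdiff, Finset.mem_range, Finset.mem_Ico] at hj ⊢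
        omega
      have h6 := Finset.card_le_card h5
      rwa [Nat.card_Ico] at h6
    have h7 : ((⌊(L : ℝ) - Metric.infDist x A⌋₊ : ℕ) : ℝ) ≤ L - Metric.infDist x A :=
      Nat.floor_le (by linarith [hA.2.2])
    have h8 : (L : ℝ) - Metric.infDist y A < (⌊(L : ℝ) - Metric.infDist y A⌋₊ : ℕ) + 1 :=
      Nat.lt_floor_add_one _
    rcases le_total ⌊(L : ℝ) - Metric.infDist x A⌋₊ ⌊(L : ℝ) - Metric.infDist y A⌋₊ with h9 | h9
    · have h10 : (Finset.range ⌊(L : ℝ) - Metric.infDist x A⌋₊ \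
        Finset.range ⌊(L : ℝ) - Metric.infDist y A⌋₊).card = 0 := by omega
      rw [h10]
      push_cast
      linarith
    · have h10 : ((Finset.range ⌊(L : ℝ) - Metric.infDist x A⌋₊ \
        Finset.range ⌊(L : ℝ) - Metric.infDist y A⌋₊).card : ℝ)
        ≤ (⌊(L : ℝ) - Metric.infDist x A⌋₊ : ℝ) - ⌊(L : ℝ) - Metric.infDist y A⌋₊ := by
        rw [← Nat.cast_sub h9]
        exact_mod_cast h4
      linarith
  · have h4 : (L : ℝ) ≤ Metric.infDist y A := by
      by_contra hcon
      push Not at hcon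
      exact hy ⟨A, hA.1, hA.2.1, hcon⟩
    refine le_trans (Nat.cast_le.2 (Finset.card_le_card Finset.sdiff_subset)) ?_
    refine le_trans (Nat.cast_le.2 Finset.card_image_le) ?_
    rw [Finset.card_range]
    have h7 : ((⌊(L : ℝ) - Metric.infDist x A⌋₊ : ℕ) : ℝ) ≤ L - Metric.infDist x A :=
      Nat.floor_le (by linarith [hA.2.2])
    linarith

theorem propertyA_of_asdim (h : AsdimLE Y k) : PropertyA Y := by
  intro R ε hR hε
  rcases isEmpty_or_nonempty Y with hem | hne
  · exact ⟨0, fun x => (hem.false x).elim, fun x => (hem.false x).elim,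
      fun x => (hem.false x).elim, fun x => (hem.false x).elim⟩
  obtain ⟨L, hL⟩ := exists_nat_gt ((2 + (k + 1) * (2 * (R + 1))) / ε + R + 2)
  have hq0 : 0 ≤ (2 + (k + 1) * (2 * (R + 1))) / ε := by positivity
  obtain ⟨U, ⟨D, hD⟩, hcov, hsep⟩ := h (2 * L + R) (by positivity)
  have hs : ∀ i, ∀ A ∈ U i, ∀ B ∈ U i, A ≠ B → ∀ a ∈ A, ∀ b ∈ B, 2 * (L : ℝ) + R < dist a b := hsep
  have hL1 : (1 : ℝ) < L := by linarith
  refine ⟨L + max D 0, fun x => {(x, 1)} ∪
    (Finset.univ : Finset (Fin (k + 1))).biUnion (fun i => E k (U i) L i x), ?_, ?_, ?_⟩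
  · intro x
    simp
  · intro x p hp
    rw [Finset.mem_union, Finset.mem_singleton, Finset.mem_biUnion] at hp
    have hDm := le_max_right D 0
    have hDl := le_max_left D 0
    rcases hp with rfl | ⟨i, _, hp⟩
    · simp only [dist_self]
      positivity
    · by_cases hx : ∃ A, Near (U i) L x A
      · obtain ⟨A, hA⟩ := hx
        rw [E_of_near hR.le le_rfl (hs i) hA, Finset.mem_image] at hp
        obtain ⟨j, _, rfl⟩ := hp
        have h1 : bp A ∈ A := by unfold bp; rw [dif_pos hA.2.1]; exact hA.2.1.some_mem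
        obtain ⟨a, ha, hxa⟩ := (Metric.infDist_lt_iff hA.2.1).1 hA.2.2
        have h2 := hD i A hA.1 a ha (bp A) h1
        have h3 := dist_triangle x a (bp A)
        simp only
        linarith
      · have : E k (U i) L i x = ∅ := by unfold E; rw [dif_neg hx]
        rw [this] at hp
        simp at hp
  · intro x y hxy
    set F : Y → Finset (Y × ℕ) := fun x => {(x, 1)} ∪
      (Finset.univ : Finset (Fin (k + 1))).biUnion (fun i => E k (U i) L i x) with hF
    have hdiff : ∀ x y, dist x y ≤ R → ((F x \ F y).card : ℝ) ≤ 1 + (k + 1) * (R + 1) := by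
      intro x y hxy
      have h1 : F x \ F y ⊆ {(x, 1)} ∪ (Finset.univ : Finset (Fin (k + 1))).biUnion
          (fun i => E k (U i) L i x \ E k (U i) L i y) := by
        intro p hp
        simp only [hF, Finset.mem_sdiff, Finset.mem_union, Finset.mem_singleton,
          Finset.mem_biUnion, Finset.mem_univ, true_and, not_or, not_exists] at hp ⊢
        obtain ⟨h1, h2, h3⟩ := hp
        rcases h1 with h1 | ⟨i, h1⟩
        · exact Or.inl h1
        · exact Or.inr ⟨i, h1, h3 i⟩
      have h2 : ((F x \ F y).card : ℝ) ≤ 1 + ∑ i : Fin (k + 1),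
          ((E k (U i) L i x \ E k (U i) L i y).card : ℝ) := by
        have h3 := (Finset.card_le_card h1).trans (Finset.card_union_le _ _)
        have h4 : ((Finset.univ : Finset (Fin (k + 1))).biUnion
          (fun i => E k (U i) L i x \ E k (U i) L i y)).card ≤ ∑ i : Fin (k + 1),
          (E k (U i) L i x \ E k (U i) L i y).card := Finset.card_biUnion_le
        rw [Finset.card_singleton] at h3
        have h5 := h3.trans (Nat.add_le_add_left h4 1)
        exact_mod_cast h5
      refine h2.trans ?_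
      have h3 : ∑ i : Fin (k + 1), ((E k (U i) L i x \ E k (U i) L i y).card : ℝ)
          ≤ ∑ _i : Fin (k + 1), (R + 1) :=
        Finset.sum_le_sum fun i _ => E_diff hR.le le_rfl (hs i) hxy
      rw [Finset.sum_const, Finset.card_univ, Fintype.card_fin, nsmul_eq_mul] at h3
      push_cast at h3
      linarith
    have hsym : ((F x ∆ F y).card : ℝ) ≤ 2 + (k + 1) * (2 * (R + 1)) := by
      have h1 : F x ∆ F y ⊆ (F x \ F y) ∪ (F y \ F x) := by
        intro p hp
        rwa [symmDiff_def, Finset.sup_eq_union] at hp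
      have h2 := (Finset.card_le_card h1).trans (Finset.card_union_le _ _)
      have h3 : ((F x ∆ F y).card : ℝ) ≤ ((F x \ F y).card : ℝ) + ((F y \ F x).card : ℝ) := by
        exact_mod_cast h2
      have h4 := hdiff x y hxy
      have h5 := hdiff y x (by rwa [dist_comm])
      linarith
    have hint : (L : ℝ) - (R + 1) ≤ ((F x ∩ F y).card : ℝ) := by
      obtain ⟨i, A, hA, hxA⟩ := hcov x
      have hinf : Metric.infDist x A = 0 := Metric.infDist_zero_of_mem hxA
      have hn : Near (U i) L x A := ⟨hA, ⟨x, hxA⟩, by rw [hinf]; linarith⟩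
      have h1 : (E k (U i) L i x).card = L := by
        rw [E_of_near hR.le le_rfl (hs i) hn, hinf,
          Finset.card_image_of_injective _ (E_inj k i _), Finset.card_range, sub_zero,
          Nat.floor_natCast]
      have h2 : E k (U i) L i x ∩ E k (U i) L i y ⊆ F x ∩ F y := by
        intro p hp
        rw [Finset.mem_inter] at hp ⊢
        simp only [hF, Finset.mem_union, Finset.mem_biUnion, Finset.mem_univ, true_and]
        exact ⟨Or.inr ⟨i, hp.1⟩, Or.inr ⟨i, hp.2⟩⟩
      have h3 := E_diff (k := k) (i := i) hR.le le_rfl (hs i) hxy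
      have h4 := Finset.card_sdiff_add_card_inter (E k (U i) L i x) (E k (U i) L i y)
      have h5 : ((E k (U i) L i x \ E k (U i) L i y).card : ℝ)
        + ((E k (U i) L i x ∩ E k (U i) L i y).card : ℝ) = L := by
        have h6 : (((E k (U i) L i x).card : ℕ) : ℝ) = L := by rw [h1]
        rw [← h6]; exact_mod_cast h4
      have h6 : ((E k (U i) L i x ∩ E k (U i) L i y).card : ℝ) ≤ ((F x ∩ F y).card : ℝ) := by
        exact_mod_cast Finset.card_le_card h2
      linarith
    have h1 : (2 + (k + 1) * (2 * (R + 1))) / ε < L - (R + 1) := by linarith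
    have h2 : (2 + (k + 1) * (2 * (R + 1))) / ε < ((F x ∩ F y).card : ℝ) := lt_of_lt_of_le h1 hint
    rw [div_lt_iff₀ hε] at h2
    calc ((F x ∆ F y).card : ℝ) ≤ 2 + (k + 1) * (2 * (R + 1)) := hsym
      _ < ((F x ∩ F y).card : ℝ) * ε := h2
      _ = _ := mul_comm _ _

end

end Pool.Agent.Y186.RA
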